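import Mathlib
import Pool.Agent.Lib.MP_c7609e_pr.Core

/-!
# A non-exponential `L` with property (R)

We show that `L(s) = (exp(-s) + exp(-2s)) / 2`, which lies in the class of the problem, tends to `0`
at infinity and is not of the form `exp(-cs)`, has property (R).  This disproves the conjectured
characterisation of the exponential.
-/

set_option autoImplicit false

open MeasureTheory ProbabilityTheory Filter Topology Set

namespace Pool.Agent.Results.MP_c7609e_pr.TwoExpRigid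

/-- The class of the problem: `L : [0,∞) → (0,1]` completely monotone, injective, `L 0 = 1`.
A function on `[0,∞)` is represented by a function on `ℝ`; only its values on `[0,∞)` are used. -/
structure InClassL (L : ℝ → ℝ) : Prop where
  /-- continuity on `[0,∞)` -/
  continuousOn : ContinuousOn L (Ici 0)
  /-- smoothness on `(0,∞)` -/
  smooth : ∀ n : ℕ, ContDiffOn ℝ n L (Ioi 0)
  /-- sign of the derivatives of order `n` on `(0,∞)` -/
  sign : ∀ (n : ℕ) (s : ℝ), 0 < s → 0 ≤ (-1 : ℝ) ^ n * iteratedDeriv n L s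
  /-- values in `(0,1]` -/
  range : ∀ s : ℝ, 0 ≤ s → 0 < L s ∧ L s ≤ 1
  /-- injectivity on `[0,∞)` -/
  injOn : InjOn L (Ici 0)
  /-- normalisation -/
  zero : L 0 = 1

/-- The set `I_L = L([0,∞))`. -/
def IL (L : ℝ → ℝ) : Set ℝ := L '' Ici 0

/-- The inverse `L⁻¹ : I_L → [0,∞)` of the restriction of `L` to `[0,∞)`. -/
noncomputable def invL (L : ℝ → ℝ) (x : ℝ) : ℝ := Function.invFunOn L (Ici 0) x

/-- The operation `Φ_L(x, y) = L(L⁻¹(x) + L⁻¹(y))`. -/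
noncomputable def PhiL (L : ℝ → ℝ) (x y : ℝ) : ℝ := L (invL L x + invL L y)

/-- The class of exponents `ψ(ξ) = σ² ξ² / 2 + ∫_{(0,∞)} (1 - cos(tξ)) ν(dt)` with
`∫ min(1, t²) ν(dt) < ∞`. -/
def InClassC (ψ : ℝ → ℝ) : Prop :=
  ∃ (σ : ℝ) (ν : Measure ℝ), ν (Iic 0) = 0 ∧ (∫⁻ t, ENNReal.ofReal (min 1 (t ^ 2)) ∂ν) < ⊤ ∧
    ∀ ξ : ℝ, ψ ξ = σ ^ 2 * ξ ^ 2 / 2 + ∫ t, (1 - Real.cos (t * ξ)) ∂ν

/-- `f` is the characteristic function of a probability measure on `ℝ` (and is real valued). -/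
def IsCharFun (f : ℝ → ℝ) : Prop :=
  ∃ μ : Measure ℝ, IsProbabilityMeasure μ ∧ ∀ ξ : ℝ, charFun μ ξ = (f ξ : ℂ)

/-- Property (R) of the problem. -/
def PropertyR (L : ℝ → ℝ) : Prop :=
  ∀ a : ℝ, 0 < a → ∀ f₁ f₂ : ℝ → ℝ, IsCharFun f₁ → IsCharFun f₂ →
    (∀ ξ, f₁ ξ ∈ IL L) → (∀ ξ, f₂ ξ ∈ IL L) →
    (∀ ξ, PhiL L (f₁ ξ) (f₂ ξ) = L (a * ξ ^ 2)) →
    ∃ η₁ η₂ : ℝ → ℝ, InClassC η₁ ∧ InClassC η₂ ∧
      (∀ ξ, f₁ ξ = L (η₁ ξ)) ∧ (∀ ξ, f₂ ξ = L (η₂ ξ))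

/-- The counterexample `L(s) = (exp(-s) + exp(-2s)) / 2`. -/
noncomputable def L₀ (s : ℝ) : ℝ := (Real.exp (-s) + Real.exp (-(2 * s))) / 2

theorem iteratedDeriv_L₀ (n : ℕ) (s : ℝ) :
    iteratedDeriv n L₀ s = (-1 : ℝ) ^ n * ((Real.exp (-s) + 2 ^ n * Real.exp (-(2 * s))) / 2) := by
  have h : iteratedDeriv n L₀ =
      fun s => (-1 : ℝ) ^ n * ((Real.exp (-s) + 2 ^ n * Real.exp (-(2 * s))) / 2) := by
    induction n with
    | zero => ext s; simp [L₀]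
    | succ n ih =>
      rw [iteratedDeriv_succ, ih]
      ext s
      have h1 : HasDerivAt (fun s : ℝ => Real.exp (-s)) (Real.exp (-s) * (-1)) s :=
        ((hasDerivAt_id' s).neg).exp
      have h2 : HasDerivAt (fun s : ℝ => Real.exp (-(2 * s))) (Real.exp (-(2 * s)) * (-(2 * 1))) s :=
        (((hasDerivAt_id' s).const_mul 2).neg).exp
      have h3 := (((h1.add (h2.const_mul ((2 : ℝ) ^ n))).div_const 2).const_mul ((-1 : ℝ) ^ n))
      have h4 : deriv (fun s => (-1 : ℝ) ^ n * ((Real.exp (-s) + 2 ^ n * Real.exp (-(2 * s))) / 2)) s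
          = (-1 : ℝ) ^ n * ((Real.exp (-s) * (-1) +
            2 ^ n * (Real.exp (-(2 * s)) * (-(2 * 1)))) / 2) := h3.deriv
      rw [h4]; ring
  exact congrFun h s

theorem L₀_anti {s t : ℝ} (h : s < t) : L₀ t < L₀ s := by
  unfold L₀
  have h1 : Real.exp (-t) < Real.exp (-s) := Real.exp_lt_exp.mpr (by linarith)
  have h2 : Real.exp (-(2 * t)) < Real.exp (-(2 * s)) := Real.exp_lt_exp.mpr (by linarith)
  linarith

theorem L₀_inj {s t : ℝ} (h : L₀ s = L₀ t) : s = t := by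
  rcases lt_trichotomy s t with h1 | h1 | h1
  · exact absurd h (L₀_anti h1).ne'
  · exact h1
  · exact absurd h (L₀_anti h1).ne

theorem inClassL_L₀ : InClassL L₀ where
  continuousOn := by
    have : Continuous L₀ := by unfold L₀; fun_prop
    exact this.continuousOn
  smooth := by
    intro n
    have : ContDiff ℝ n L₀ := by unfold L₀; fun_prop
    exact this.contDiffOn
  sign := by
    intro n s _
    rw [iteratedDeriv_L₀, ← mul_assoc, ← mul_pow]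
    norm_num
    positivity
  range := by
    intro s hs
    unfold L₀
    have h1 : Real.exp (-s) ≤ 1 := by rw [Real.exp_le_one_iff]; linarith
    have h2 : Real.exp (-(2 * s)) ≤ 1 := by rw [Real.exp_le_one_iff]; linarith
    have h3 := Real.exp_pos (-s)
    have h4 := Real.exp_pos (-(2 * s))
    constructor <;> linarith
  injOn := fun s _ t _ h => L₀_inj h
  zero := by simp [L₀]

theorem tendsto_L₀ : Tendsto L₀ atTop (𝓝 0) := by
  have h1 : Tendsto (fun s : ℝ => Real.exp (-s)) atTop (𝓝 0) :=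
    Real.tendsto_exp_neg_atTop_nhds_zero
  have h2 : Tendsto (fun s : ℝ => Real.exp (-(2 * s))) atTop (𝓝 0) :=
    h1.comp (tendsto_id.const_mul_atTop (by norm_num : (0 : ℝ) < 2))
  have h3 := (h1.add h2).div_const 2
  rw [add_zero, zero_div] at h3
  exact h3

theorem not_exp_L₀ (c : ℝ) : ¬ ∀ s : ℝ, 0 ≤ s → L₀ s = Real.exp (-(c * s)) := by
  intro h
  set x := Real.exp (-(1 : ℝ)) with hx
  have hx0 : 0 < x := Real.exp_pos _
  have hx1 : x < 1 := by rw [hx, Real.exp_lt_one_iff]; norm_num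
  have h1 := h 1 (by norm_num)
  have h2 := h 2 (by norm_num)
  have e1 : Real.exp (-(2 * (1 : ℝ))) = x ^ 2 := by
    rw [hx, ← Real.exp_nat_mul]; norm_num
  have e2 : Real.exp (-(2 : ℝ)) = x ^ 2 := by
    rw [hx, ← Real.exp_nat_mul]; norm_num
  have e3 : Real.exp (-(2 * (2 : ℝ))) = x ^ 4 := by
    rw [hx, ← Real.exp_nat_mul]; norm_num
  have e4 : Real.exp (-(c * 2)) = (Real.exp (-(c * 1))) ^ 2 := by
    rw [← Real.exp_nat_mul]; congr 1; push_cast; ring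
  unfold L₀ at h1 h2
  rw [e1] at h1
  rw [e2, e3, e4, ← h1] at h2
  have : x ^ 2 * (1 - x) ^ 2 = 0 := by
    have h3 : (x ^ 2 + x ^ 4) / 2 = ((Real.exp (-1) + x ^ 2) / 2) ^ 2 := h2
    rw [← hx] at h3
    nlinarith
  have h5 : 0 < x ^ 2 * (1 - x) ^ 2 := by
    have : 0 < 1 - x := by linarith
    positivity
  linarith

/-- Quadratic functions are in the class of exponents. -/
theorem inClassC_quadratic (c : ℝ) (hc : 0 ≤ c) : InClassC (fun ξ => c * ξ ^ 2) := by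
  refine ⟨Real.sqrt (2 * c), 0, by simp, by simp, fun ξ => ?_⟩
  rw [Real.sq_sqrt (by positivity)]
  simp; ring

theorem propertyR_L₀ : PropertyR L₀ := by
  intro a ha f₁ f₂ hf₁ hf₂ hI₁ hI₂ hPhi
  obtain ⟨μ₁, hμ₁, hc₁⟩ := hf₁
  obtain ⟨μ₂, hμ₂, hc₂⟩ := hf₂
  set s₁ : ℝ → ℝ := fun t => invL L₀ (f₁ t) with hs₁
  set s₂ : ℝ → ℝ := fun t => invL L₀ (f₂ t) with hs₂
  have hp₁ : ∀ t, 0 ≤ s₁ t := fun t => Function.invFunOn_mem (hI₁ t)
  have hp₂ : ∀ t, 0 ≤ s₂ t := fun t => Function.invFunOn_mem (hI₂ t)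
  have he₁ : ∀ t, L₀ (s₁ t) = f₁ t := fun t => Function.invFunOn_eq (hI₁ t)
  have he₂ : ∀ t, L₀ (s₂ t) = f₂ t := fun t => Function.invFunOn_eq (hI₂ t)
  have hs : ∀ t, s₁ t + s₂ t = a * t ^ 2 := fun t => L₀_inj (hPhi t)
  have h₁ : ∀ t : ℝ, charFun μ₁ t = ((Real.exp (-s₁ t) + Real.exp (-2 * s₁ t)) / 2 : ℝ) := by
    intro t
    rw [hc₁ t, ← he₁ t]
    unfold L₀
    congr 4
    ring
  have h₂ : ∀ t : ℝ, charFun μ₂ t = ((Real.exp (-s₂ t) + Real.exp (-2 * s₂ t)) / 2 : ℝ) := by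
    intro t
    rw [hc₂ t, ← he₂ t]
    unfold L₀
    congr 4
    ring
  obtain ⟨c₁, hc₁0, hc₁e⟩ := Pool.Agent.Lib.MP_c7609e.main_core ha.le μ₁ μ₂ s₁ s₂ hp₁ hp₂ hs h₁ h₂
  obtain ⟨c₂, hc₂0, hc₂e⟩ := Pool.Agent.Lib.MP_c7609e.main_core ha.le μ₂ μ₁ s₂ s₁ hp₂ hp₁
    (fun t => by rw [add_comm]; exact hs t) h₂ h₁
  refine ⟨fun ξ => c₁ * ξ ^ 2, fun ξ => c₂ * ξ ^ 2, inClassC_quadratic c₁ hc₁0,
    inClassC_quadratic c₂ hc₂0, fun ξ => ?_, fun ξ => ?_⟩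
  · show f₁ ξ = L₀ (c₁ * ξ ^ 2)
    rw [← hc₁e ξ]; exact (he₁ ξ).symm
  · show f₂ ξ = L₀ (c₂ * ξ ^ 2)
    rw [← hc₂e ξ]; exact (he₂ ξ).symm

/-- The function `L₀(s) = (exp(-s) + exp(-2s)) / 2` belongs to the class of the problem, tends to
`0` at infinity, is not an exponential and has property (R). Hence the conjectured
characterisation of the exponential by property (R) is false. -/
theorem result :
    (InClassL L₀ ∧ Tendsto L₀ atTop (𝓝 0) ∧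
      (∀ c : ℝ, ¬ ∀ s : ℝ, 0 ≤ s → L₀ s = Real.exp (-(c * s))) ∧ PropertyR L₀) ∧
    ¬ (∀ L : ℝ → ℝ, InClassL L →
      (PropertyR L ↔ ∃ c : ℝ, 0 < c ∧ ∀ s : ℝ, 0 ≤ s → L s = Real.exp (-(c * s)))) := by
  refine ⟨⟨inClassL_L₀, tendsto_L₀, not_exp_L₀, propertyR_L₀⟩, fun h => ?_⟩
  obtain ⟨c, -, hc⟩ := (h L₀ inClassL_L₀).mp propertyR_L₀
  exact not_exp_L₀ c hc

end Pool.Agent.Results.MP_c7609e_pr.TwoExpRigid
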